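import Pool.Agent.Helper99.BT.Defs

/-!
# BT, piece W, C1: the cut points of a list are admissible
-/

set_option autoImplicit false
set_option linter.unusedSectionVars false

namespace Pool.Agent.Helper27.BT

open Finset Pool.Agent.Helper74.NW Pool.Agent.Helper96.BT Pool.Agent.Helper99.BT
open Pool.Agent.Helper99.NK (times)

section lists

variable {C : Type} {S q J w : ℕ} {H : Fin q → C}

theorem times_append (p p' : List C) (x : C) : times (p ++ p') x = times p x + times p' x := by
  classical
  unfold times
  exact List.count_append

theorem adv_append (v : Fin q → ℕ) (p p' : List C) :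
    adv H w (adv H w v p) p' = adv H w v (p ++ p') := by
  funext i
  unfold adv
  rw [times_append]
  omega

theorem adv_nil : adv H w 0 ([] : List C) = 0 := by
  classical
  funext i
  unfold adv times
  simp

theorem kap_mono {v v' : Fin q → ℕ} (h : ∀ i, v i ≤ v' i) : kap v ≤ kap v' := by
  unfold kap
  exact sum_le_sum fun i _ => h i

theorem kap_le (v : Fin q → ℕ) (p : List C) : kap (adv H w v p) ≤ (w + 1) * q := by
  unfold kap adv
  refine (sum_le_sum fun i _ => min_le_right _ _).trans ?_
  rw [sum_const, card_univ, Fintype.card_fin, smul_eq_mul, Nat.mul_comm]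

theorem times_take_mono (l : List C) {s t : ℕ} (h : s ≤ t) (x : C) : times (l.take s) x ≤ times (l.take t) x := by
  have h1 : l.take t = l.take s ++ (l.take t).drop s := by
    have h2 := List.take_append_drop s (l.take t)
    rw [List.take_take, min_eq_left h] at h2
    exact h2.symm
  rw [h1, times_append]
  exact Nat.le_add_right _ _

theorem kap_take_mono (l : List C) (v : Fin q → ℕ) {s t : ℕ} (h : s ≤ t) :
    kap (adv H w v (l.take s)) ≤ kap (adv H w v (l.take t)) := by
  refine kap_mono fun i => ?_
  unfold adv
  have := times_take_mono l h (H i)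
  omega

/-- A downward closed set of numbers below `n` is a beginning. -/
theorem mem_iff_lt_card {n : ℕ} {p : ℕ → Prop} [DecidablePred p] (hp : ∀ s t, s ≤ t → p t → p s) (t : ℕ)
    (ht : t < n) : p t ↔ t < ((range n).filter p).card := by
  constructor
  · intro h
    have h1 : range (t + 1) ⊆ (range n).filter p := by
      intro s hs
      rw [mem_range] at hs
      rw [mem_filter, mem_range]
      exact ⟨by omega, hp s t (by omega) h⟩
    have h2 := card_le_card h1
    rw [card_range] at h2
    omega
  · intro h
    by_contra h1
    have h2 : (range n).filter p ⊆ range t := by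
      intro s hs
      rw [mem_filter, mem_range] at hs
      rw [mem_range]
      by_contra h3
      exact h1 (hp t s (by omega) hs.2)
    have h3 := card_le_card h2
    rw [card_range] at h3
    omega

theorem lt_cutp (l : List C) (j t : ℕ) (ht : t < l.length) :
    kap (adv H w 0 (l.take t)) < j ↔ t < cutp H w l j := by
  classical
  unfold cutp
  exact mem_iff_lt_card (p := fun t => kap (adv H w 0 (l.take t)) < j)
    (fun s t h h1 => lt_of_le_of_lt (kap_take_mono l 0 h) h1) t ht

theorem cutp_le (l : List C) (j : ℕ) : cutp H w l j ≤ l.length := by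
  classical
  unfold cutp
  refine (card_filter_le _ _).trans ?_
  rw [card_range]

theorem cutp_mono (l : List C) : Monotone (cutp H w l) := by
  classical
  intro i j h
  unfold cutp
  refine card_le_card fun t ht => ?_
  rw [mem_filter] at ht ⊢
  exact ⟨ht.1, by omega⟩

theorem cutp_zero (l : List C) : cutp H w l 0 = 0 := by
  classical
  unfold cutp
  simp

theorem cutp_last (hJ : (w + 1) * q < J) (l : List C) : cutp H w l J = l.length := by
  classical
  unfold cutp
  rw [filter_true_of_mem, card_range]
  intro t _
  exact lt_of_le_of_lt (kap_le 0 _) hJ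

theorem take_seg (l : List C) (j : ℕ) {t : ℕ} (ht : t ≤ cutp H w l (j + 1) - cutp H w l j) :
    l.take (cutp H w l j) ++ (seg (cutp H w l) l j).take t = l.take (cutp H w l j + t) := by
  unfold seg
  rw [List.take_take, min_eq_left ht, List.take_add]

/-- C1: the cut points of a list are admissible, and the windows satisfy `WinP`. -/
theorem adm_cutp (hJ : (w + 1) * q < J) (l : List C) :
    Adm J (cutp H w l) (fun j => adv H w 0 (l.take (cutp H w l j))) ∧ cutp H w l J = l.length ∧
      ∀ j, WinP H w j (adv H w 0 (l.take (cutp H w l j))) (adv H w 0 (l.take (cutp H w l (j + 1))))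
        (seg (cutp H w l) l j) := by
  refine ⟨⟨cutp_mono l, cutp_zero l, ?_, ?_⟩, cutp_last hJ l, fun j => ⟨?_, ?_⟩⟩
  · show adv H w 0 (l.take (cutp H w l 0)) = 0
    rw [cutp_zero, List.take_zero, adv_nil]
  · intro j _
    show j < kap (adv H w 0 (l.take (cutp H w l (j + 1)))) ∨ cutp H w l (j + 1) = cutp H w l J
    rw [cutp_last hJ l]
    by_cases h : cutp H w l (j + 1) < l.length
    · left
      by_contra h1
      have h2 := (lt_cutp (H := H) (w := w) l (j + 1) _ h).1 (by omega)
      omega
    · right
      have := cutp_le (H := H) (w := w) l (j + 1)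
      omega
  · intro t ht
    have hlen : (seg (cutp H w l) l j).length = cutp H w l (j + 1) - cutp H w l j := by
      unfold seg
      rw [List.length_take, List.length_drop]
      have := cutp_le (H := H) (w := w) l (j + 1)
      omega
    rw [hlen] at ht
    rw [adv_append, take_seg l j (by omega)]
    have h1 := cutp_le (H := H) (w := w) l (j + 1)
    have h2 := (lt_cutp (H := H) (w := w) l (j + 1) (cutp H w l j + t) (by omega)).2 (by omega)
    omega
  · rw [adv_append]
    have h1 : seg (cutp H w l) l j = (seg (cutp H w l) l j).take (cutp H w l (j + 1) - cutp H w l j) := by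
      unfold seg
      rw [List.take_take, min_self]
    rw [h1, take_seg l j le_rfl]
    have h2 := cutp_mono (H := H) (w := w) l (Nat.le_succ j)
    rw [Nat.succ_eq_add_one] at h2
    rw [show cutp H w l j + (cutp H w l (j + 1) - cutp H w l j) = cutp H w l (j + 1) by omega]

end lists

end Pool.Agent.Helper27.BT
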