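import Pool.Agent.Helper27.BT.Lam

/-!
# BT, piece G1: the cylinder lemma in one orbit, two places for every window, letters `t < m1`
-/

set_option autoImplicit false
set_option linter.unusedSectionVars false

namespace Pool.Agent.Helper27.BT

open Finset Pool.Agent.Helper19.NF Pool.Agent.Helper74.NW Pool.Agent.Helper96.BT
open Pool.Agent.Helper74.NE (fine fine_apply)
open Pool.Agent.Helper99.NQ (pos)
open Pool.Agent.Helper96.PH (CB)

theorem card_filter_eq {α : Type} [Fintype α] (p : α → Prop) {inst : DecidablePred p} :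
    (univ.filter p).card = Nat.card {a // p a} := by
  rw [Nat.card_eq_fintype_card, Fintype.card_subtype]

/-- The average over the shifts `τ y` of a comparison of two counts. -/
theorem compare {A Y : Type} [AddGroup A] [Fintype A] [Fintype Y] [Nonempty Y] (τ : Y → A) (P Q : A → Prop)
    (c δ : ℝ)
    (h : ∀ b, (Nat.card {y // P (b + τ y)} : ℝ) ≤ Nat.card {y // Q (b + τ y)} / c + δ * Fintype.card Y) :
    (Nat.card {b // P b} : ℝ) ≤ Nat.card {b // Q b} / c + δ * Fintype.card A := by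
  classical
  have key : ∀ R : A → Prop, ∑ b, (Nat.card {y // R (b + τ y)} : ℝ) = Fintype.card Y * Nat.card {b // R b} := by
    intro R
    have h1 : ∀ b, (Nat.card {y // R (b + τ y)} : ℝ) = ∑ y, if R (b + τ y) then (1 : ℝ) else 0 := by
      intro b
      rw [Nat.card_eq_fintype_card, Fintype.card_subtype, card_filter]
      push_cast
      rfl
    have h2 : (Nat.card {b // R b} : ℝ) = ∑ b, if R b then (1 : ℝ) else 0 := by
      rw [Nat.card_eq_fintype_card, Fintype.card_subtype, card_filter]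
      push_cast
      rfl
    simp_rw [h1]
    rw [sum_comm, h2]
    have h3 : ∀ y, (∑ b, if R (b + τ y) then (1 : ℝ) else 0) = ∑ b, if R b then (1 : ℝ) else 0 := fun y =>
      Fintype.sum_equiv (Equiv.addRight (τ y)) _ _ fun b => rfl
    rw [sum_congr rfl fun y _ => h3 y, sum_const, card_univ, nsmul_eq_mul]
  have hY : (0 : ℝ) < Fintype.card Y := Nat.cast_pos.2 Fintype.card_pos
  have h4 := sum_le_sum (s := (univ : Finset A)) fun b _ => h b
  rw [sum_add_distrib, ← sum_div, key, key, sum_const, card_univ, nsmul_eq_mul] at h4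
  refine le_of_mul_le_mul_left ?_ hY
  calc (Fintype.card Y : ℝ) * Nat.card {b // P b} ≤
        Fintype.card Y * Nat.card {b // Q b} / c + Fintype.card A * (δ * Fintype.card Y) := h4
    _ = _ := by ring

section net

variable {n D m : ℕ} [NeZero m] {F B W G : Type} [Field F] [Fintype F] [AddCommGroup B] [AddCommGroup W] [Module F W]
  [Fintype W] [Fintype B] (enc : W →+ (Fin D × Fin m → B))

open Classical in
/-- One window: changes at places in `U`. -/
theorem step {w N : ℕ} (g : Fin D → Equiv.Perm (Fin n)) (hh : Fin (w + 1) → Fin n → Fin D × Fin m)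
    (K : Finset (Fin n)) (E : Fin (w + 1) → Finset (Ch n m F W))
    (U : Fin (w + 1) → Ch n m F W → Fin n → Finset (W))
    (cl : ∀ j, ∀ x ∈ E j, ∀ x', (∀ p l, x' p l ≠ x p l → ∃ u ∈ K, pos g (hh j) u = p ∧ l ∈ U j x u) →
      x' ∈ E j ∧ ∀ u ∈ K, U j x' u = U j x u)
    (jj : Fin N → Fin (w + 1)) (j : Fin (w + 1)) (Y : Fin N → Fin n → W) (x x' : Ch n m F W)
    (hx : x ∈ E j) (hY : ∀ l, jj l = j → ∀ u ∈ K, Y l u ∈ U j x u)
    (hx' : x' = x + ∑ l ∈ univ.filter (fun l => jj l = j), flip (F := F) g (hh j) K (Y l) ∨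
      x' = x - ∑ l ∈ univ.filter (fun l => jj l = j), flip (F := F) g (hh j) K (Y l)) :
    x' ∈ E j ∧ ∀ u ∈ K, U j x' u = U j x u := by
  refine cl j x hx x' fun p l hpl => ?_
  have h1 : (∑ l ∈ univ.filter (fun l => jj l = j), flip (F := F) g (hh j) K (Y l)) p l ≠ 0 := by
    intro h2
    rcases hx' with h3 | h3
    · refine hpl ?_
      rw [h3, Pi.add_apply, Pi.add_apply, h2, add_zero]
    · refine hpl ?_
      rw [h3, Pi.sub_apply, Pi.sub_apply, h2, sub_zero]
  rw [Finset.sum_apply, Finset.sum_apply] at h1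
  obtain ⟨i, hi, h2⟩ := exists_ne_zero_of_sum_ne_zero h1
  obtain ⟨u, h7, h3, h4⟩ := flip_ne_zero h2
  refine ⟨u, h7, h3, ?_⟩
  rw [← h4]
  exact hY i (mem_filter.1 hi).2 u h7

open Classical in
/-- B1: the cylinder lemma in one orbit, two places for every window. -/
theorem cyl_bound [AddCommGroup G] [Fintype G] {w m1 : ℕ} (hE : Mds enc (D * m1)) (hm1 : m1 ≤ m)
    (g : Fin D → Equiv.Perm (Fin n))
    (hh : Fin (w + 1) → Fin n → Fin D × Fin m) (t0 : Fin n × Fin m → B) (K : Finset (Fin n)) (h : ℕ) (h0 : 0 < h)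
    (E : Fin (w + 1) → Finset (Ch n m F W))
    (U : Fin (w + 1) → Ch n m F W → Fin n → Finset (W))
    (hU : ∀ j, ∀ x ∈ E j, ∀ u ∈ K, (U j x u).card = h)
    (cl : ∀ j, ∀ x ∈ E j, ∀ x', (∀ p l, x' p l ≠ x p l → ∃ u ∈ K, pos g (hh j) u = p ∧ l ∈ U j x u) →
      x' ∈ E j ∧ ∀ u ∈ K, U j x' u = U j x u)
    (γ : B → G) {δ : ℝ} (hδ : 0 ≤ δ) (hγ : CB γ (Fin K.card × Fin m1) (2 * w + 1) δ) (z : G) :
    ((univ.filter (fun x : Ch n m F W => (∀ j, x ∈ E j) ∧
        ∑ v ∈ univ.filter (fun v : Fin n × Fin m => v.2.val < m1), γ (t0 v + lam enc g x v) = z)).card : ℝ) ≤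
      (univ.filter (fun x : Ch n m F W => ∀ j, x ∈ E j)).card / Fintype.card G +
        δ * (1 / ((h : ℝ) / Fintype.card W)) ^ (2 * (w + 1) * K.card) * Nat.card (Ch n m F W) := by
  classical
  -- the players
  have hcard : Fintype.card (Fin (w + 1) × Bool) = 2 * w + 1 + 1 := by
    rw [Fintype.card_prod, Fintype.card_fin, Fintype.card_bool]
    ring
  obtain ⟨ε⟩ : Nonempty (Fin (w + 1) × Bool ≃ Fin (2 * w + 1 + 1)) := ⟨Fintype.equivFinOfCardEq hcard⟩
  obtain ⟨jj, hjj⟩ : ∃ jj : Fin (2 * w + 1 + 1) → Fin (w + 1), jj = fun l => (ε.symm l).1 := ⟨_, rfl⟩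
  obtain ⟨pt, hpt⟩ : ∃ pt : Fin (2 * w + 1 + 1) → Fin (2 * w + 1 + 1),
    pt = fun l => ε ((ε.symm l).1, !(ε.symm l).2) := ⟨_, rfl⟩
  have p1 : ∀ l, jj (pt l) = jj l := by
    intro l
    rw [hjj, hpt]
    simp
  have p2 : ∀ l, pt (pt l) = l := by
    intro l
    rw [hpt]
    simp
  have p3 : ∀ l, pt l ≠ l := by
    intro l h1
    rw [hpt] at h1
    have h2 := congrArg ε.symm h1
    simp only [Equiv.symm_apply_apply] at h2
    have h3 := congrArg Prod.snd h2
    cases h4 : (ε.symm l).2 <;> simp [h4] at h3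
  have p4 : ∀ j, ∃ l, jj l = j := fun j => ⟨ε (j, true), by rw [hjj]; simp⟩
  -- the places
  obtain ⟨Dd, hDd⟩ : ∃ Dd : Fin (2 * w + 1 + 1) → (Fin n → W) → Ch n m F W,
    Dd = fun l Y => flip (F := F) g (hh (jj l)) K Y := ⟨_, rfl⟩
  obtain ⟨XX, hXX⟩ : ∃ XX : Ch n m F W → (Fin (2 * w + 1 + 1) → Fin n → W) → Ch n m F W,
    XX = fun x0 Y => x0 + ∑ l, Dd l (Y l) := ⟨_, rfl⟩
  obtain ⟨Xj, hXj⟩ : ∃ Xj : Fin (w + 1) → Ch n m F W → (Fin (2 * w + 1 + 1) → Fin n → W) →
      Ch n m F W,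
    Xj = fun j x0 Y => x0 + ∑ l ∈ univ.filter (fun l => ¬ jj l = j), Dd l (Y l) := ⟨_, rfl⟩
  have hsplit : ∀ j x0 Y, XX x0 Y = Xj j x0 Y + ∑ l ∈ univ.filter (fun l => jj l = j),
      flip (F := F) g (hh j) K (Y l) := by
    intro j x0 Y
    have h1 : ∑ l ∈ univ.filter (fun l => jj l = j), flip (F := F) g (hh j) K (Y l) =
        ∑ l ∈ univ.filter (fun l => jj l = j), Dd l (Y l) := by
      refine sum_congr rfl fun l hl => ?_
      rw [hDd]
      show _ = flip (F := F) g (hh (jj l)) K (Y l)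
      rw [(mem_filter.1 hl).2]
    have h2 := sum_filter_add_sum_filter_not univ (fun l => jj l = j) fun l => Dd l (Y l)
    rw [h1, hXX, hXj]
    show x0 + _ = x0 + _ + _
    rw [← h2]
    abel
  let Cond : Ch n m F W → (Fin (2 * w + 1 + 1) → Fin n → W) → Prop := fun x Y =>
    ∀ l, x ∈ E (jj l) ∧ ∀ u ∈ K, Y l u ∈ U (jj l) x u
  let Cyl : Fin (2 * w + 1 + 1) → Ch n m F W → (Fin (2 * w + 1 + 1) → Fin n → W) → Prop :=
    fun l x0 Y => Xj (jj l) x0 Y ∈ E (jj l) ∧ ∀ u ∈ K, Y (pt l) u ∈ U (jj l) (Xj (jj l) x0 Y) u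
  have hCond : ∀ x0 Y, Cond (XX x0 Y) Y ↔ ∀ l, Cyl l x0 Y := by
    intro x0 Y
    constructor
    · intro hc l
      have h1 : ∀ l', jj l' = jj l → ∀ u ∈ K, Y l' u ∈ U (jj l) (XX x0 Y) u := by
        intro l' hl' u hu
        have := (hc l').2 u hu
        rwa [hl'] at this
      obtain ⟨h2, h3⟩ := step g hh K E U cl jj (jj l) Y (XX x0 Y) (Xj (jj l) x0 Y) (hc l).1 h1
        (Or.inr (by rw [hsplit (jj l) x0 Y, add_sub_cancel_right]))
      refine ⟨h2, fun u hu => ?_⟩
      rw [h3 u hu]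
      exact h1 (pt l) (p1 l) u hu
    · intro hc l
      have h1 : ∀ l', jj l' = jj l → ∀ u ∈ K, Y l' u ∈ U (jj l) (Xj (jj l) x0 Y) u := by
        intro l' hl' u hu
        have := (hc (pt l')).2 u hu
        rwa [p1, p2, hl'] at this
      obtain ⟨h2, h3⟩ := step g hh K E U cl jj (jj l) Y (Xj (jj l) x0 Y) (XX x0 Y) (hc l).1 h1
        (Or.inl (hsplit (jj l) x0 Y))
      refine ⟨h2, fun u hu => ?_⟩
      rw [h3 u hu]
      exact h1 l rfl u hu
  have hCond' : ∀ x Y, Cond x Y ↔ (∀ j, x ∈ E j) ∧ ∀ l, ∀ u ∈ K, Y l u ∈ U (jj l) x u := by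
    intro x Y
    constructor
    · intro h1
      refine ⟨fun j => ?_, fun l => (h1 l).2⟩
      obtain ⟨l, hl⟩ := p4 j
      rw [← hl]
      exact (h1 l).1
    · intro h1 l
      exact ⟨h1.1 _, h1.2 l⟩
  let f : Ch n m F W → G := fun x =>
    ∑ v ∈ univ.filter (fun v : Fin n × Fin m => v.2.val < m1), γ (t0 v + lam enc g x v)
  -- the count of the places
  have hL : (0 : ℝ) < Fintype.card W := Nat.cast_pos.2 (Fintype.card_pos_iff.2 ⟨0⟩)
  have hhR : (0 : ℝ) < h := by exact_mod_cast h0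
  obtain ⟨c0, hc0⟩ : ∃ c0 : ℕ, c0 = (h ^ K.card * Fintype.card W ^ (n - K.card)) ^ (2 * w + 1 + 1) := ⟨_, rfl⟩
  have hcount : ∀ x : Ch n m F W, (∀ j, x ∈ E j) →
      Nat.card {Y : Fin (2 * w + 1 + 1) → Fin n → W // ∀ l, ∀ u ∈ K, Y l u ∈ U (jj l) x u} = c0 := by
    intro x hx
    have h1 : ∀ Y : Fin (2 * w + 1 + 1) → Fin n → W,
        (∀ l, ∀ u ∈ K, Y l u ∈ U (jj l) x u) ↔
        Y ∈ Fintype.piFinset fun l => Fintype.piFinset fun u => if u ∈ K then U (jj l) x u else univ := by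
      intro Y
      simp only [Fintype.mem_piFinset]
      constructor
      · intro h2 l u
        split_ifs with hu
        · exact h2 l u hu
        · exact mem_univ _
      · intro h2 l u hu
        have := h2 l u
        rwa [if_pos hu] at this
    rw [Nat.card_congr (Equiv.subtypeEquivRight h1), Nat.card_eq_fintype_card, Fintype.card_coe, Fintype.card_piFinset]
    have h2 : ∀ l, (Fintype.piFinset fun u => if u ∈ K then U (jj l) x u else univ).card = h ^ K.card * Fintype.card W ^ (n - K.card) := by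
      intro l
      rw [Fintype.card_piFinset]
      have h3 : ∀ u, (if u ∈ K then U (jj l) x u else univ).card = if u ∈ K then h else Fintype.card W := by
        intro u
        split_ifs with hu
        · exact hU _ x (hx _) u hu
        · exact card_univ
      rw [prod_congr rfl fun u _ => h3 u, prod_ite, prod_const, prod_const]
      congr 2
      · congr 1
        ext u
        simp
      · have h4 : (univ.filter fun u : Fin n => ¬ u ∈ K) = Kᶜ := by
          ext u
          simp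
        rw [h4, card_compl, Fintype.card_fin]
    rw [prod_congr rfl fun l _ => h2 l, prod_const, card_univ, Fintype.card_fin, hc0]
  have hsum : ∀ R : Ch n m F W → Prop,
      (Nat.card {p : Ch n m F W × (Fin (2 * w + 1 + 1) → Fin n → W) // Cond p.1 p.2 ∧ R p.1} : ℝ) =
        (univ.filter (fun x : Ch n m F W => (∀ j, x ∈ E j) ∧ R x)).card * c0 := by
    intro R
    have e1 : {p : Ch n m F W × (Fin (2 * w + 1 + 1) → Fin n → W) // Cond p.1 p.2 ∧ R p.1} ≃
        Σ x : {x : Ch n m F W // (∀ j, x ∈ E j) ∧ R x},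
          {Y : Fin (2 * w + 1 + 1) → Fin n → W // ∀ l, ∀ u ∈ K, Y l u ∈ U (jj l) x.1 u} :=
      { toFun := fun p => ⟨⟨p.1.1, ((hCond' _ _).1 p.2.1).1, p.2.2⟩, ⟨p.1.2, ((hCond' _ _).1 p.2.1).2⟩⟩
        invFun := fun q => ⟨(q.1.1, q.2.1), (hCond' _ _).2 ⟨q.1.2.1, q.2.2⟩, q.1.2.2⟩
        left_inv := fun p => rfl
        right_inv := fun q => rfl }
    have i1 : Fintype {x : Ch n m F W // (∀ j, x ∈ E j) ∧ R x} := Fintype.ofFinite _
    have i2 : ∀ x : {x : Ch n m F W // (∀ j, x ∈ E j) ∧ R x},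
        Finite {Y : Fin (2 * w + 1 + 1) → Fin n → W // ∀ l, ∀ u ∈ K, Y l u ∈ U (jj l) x.1 u} :=
      fun x => Subtype.finite
    rw [Nat.card_congr e1, Nat.card_sigma, sum_congr rfl fun x _ => hcount x.1 x.2.1, sum_const, card_univ,
      smul_eq_mul, ← Nat.card_eq_fintype_card, ← card_filter_eq]
    push_cast
    rfl
  -- change of the variable
  have hchg : ∀ R : Ch n m F W → Prop,
      (Nat.card {p : Ch n m F W × (Fin (2 * w + 1 + 1) → Fin n → W) // Cond p.1 p.2 ∧ R p.1} : ℝ) =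
        ∑ x0 : Ch n m F W, (Nat.card {Y : Fin (2 * w + 1 + 1) → Fin n → W //
          (∀ l, Cyl l x0 Y) ∧ R (XX x0 Y)} : ℝ) := by
    intro R
    have e0 : Ch n m F W × (Fin (2 * w + 1 + 1) → Fin n → W) ≃
        Ch n m F W × (Fin (2 * w + 1 + 1) → Fin n → W) := Equiv.refl _
    let e2 : Ch n m F W × (Fin (2 * w + 1 + 1) → Fin n → W) ≃
        Ch n m F W × (Fin (2 * w + 1 + 1) → Fin n → W) :=
      { toFun := fun p => (XX p.1 p.2, p.2)
        invFun := fun p => (p.1 - ∑ l, Dd l (p.2 l), p.2)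
        left_inv := fun p => by
          refine Prod.ext ?_ rfl
          show XX p.1 p.2 - ∑ l, Dd l (p.2 l) = p.1
          rw [hXX]
          exact add_sub_cancel_right _ _
        right_inv := fun p => by
          refine Prod.ext ?_ rfl
          show XX (p.1 - ∑ l, Dd l (p.2 l)) p.2 = p.1
          rw [hXX]
          exact sub_add_cancel _ _ }
    have e3 : {p : Ch n m F W × (Fin (2 * w + 1 + 1) → Fin n → W) //
        (∀ l, Cyl l p.1 p.2) ∧ R (XX p.1 p.2)} ≃
        {p : Ch n m F W × (Fin (2 * w + 1 + 1) → Fin n → W) // Cond p.1 p.2 ∧ R p.1} :=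
      e2.subtypeEquiv fun p => and_congr_left fun _ => (hCond p.1 p.2).symm
    have e4 : {p : Ch n m F W × (Fin (2 * w + 1 + 1) → Fin n → W) //
        (∀ l, Cyl l p.1 p.2) ∧ R (XX p.1 p.2)} ≃
        Σ x0 : Ch n m F W, {Y : Fin (2 * w + 1 + 1) → Fin n → W //
          (∀ l, Cyl l x0 Y) ∧ R (XX x0 Y)} :=
      { toFun := fun p => ⟨p.1.1, p.1.2, p.2⟩
        invFun := fun q => ⟨(q.1, q.2.1), q.2.2⟩
        left_inv := fun p => rfl
        right_inv := fun q => rfl }
    rw [← Nat.card_congr e3, Nat.card_congr e4, Nat.card_sigma]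
    push_cast
    rfl
  -- one `x0`
  have hone : ∀ x0 : Ch n m F W,
      (Nat.card {Y : Fin (2 * w + 1 + 1) → Fin n → W // (∀ l, Cyl l x0 Y) ∧ f (XX x0 Y) = z} : ℝ) ≤
        Nat.card {Y : Fin (2 * w + 1 + 1) → Fin n → W // ∀ l, Cyl l x0 Y} / Fintype.card G +
          δ * Fintype.card (Fin (2 * w + 1 + 1) → Fin n → W) := by
    intro x0
    let κ := K.equivFin
    let ext : (Fin K.card × Fin m1 → B) → (Fin n × Fin m → B) :=
      fun y v => if hv : v.1 ∈ K ∧ v.2.val < m1 then y (κ ⟨v.1, hv.1⟩, ⟨v.2.val, hv.2⟩) else 0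
    let τ : (Fin (2 * w + 1 + 1) → Fin K.card × Fin m1 → B) → (Fin (2 * w + 1 + 1) → Fin n → W) :=
      fun y l => shift enc m1 (hh (jj l)) (ext (y l))
    let pp : Fin K.card × Fin m1 → Fin n × Fin m := fun c => ((κ.symm c.1).1, Fin.castLE hm1 c.2)
    refine compare τ _ _ _ _ fun b => ?_
    let base : Fin n × Fin m → B := fun v => t0 v + lam enc g x0 v + ∑ l, lam enc g (Dd l (b l)) v
    have hlam : ∀ (y : Fin (2 * w + 1 + 1) → Fin K.card × Fin m1 → B) (v : Fin n × Fin m), v.2.val < m1 →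
        t0 v + lam enc g (XX x0 (b + τ y)) v = base v + ∑ l, if v.1 ∈ K then ext (y l) v else 0 := by
      rintro y ⟨u, t⟩ ht
      have h1 : XX x0 (b + τ y) = x0 + ∑ l, Dd l ((b + τ y) l) := by rw [hXX]
      rw [h1, lam_add, lam_sum]
      have h2 : ∀ l, lam enc g (Dd l ((b + τ y) l)) (u, t) = lam enc g (Dd l (b l)) (u, t) +
          if u ∈ K then ext (y l) (u, t) else 0 := by
        intro l
        have h3 : Dd l ((b + τ y) l) = flip (F := F) g (hh (jj l)) K (b l + τ y l) := by rw [hDd]; rfl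
        have h4 : Dd l (b l) = flip (F := F) g (hh (jj l)) K (b l) := by rw [hDd]
        rw [h3, h4, lam_flip_add]
        congr 1
        exact lam_shift enc hE hm1 g (hh (jj l)) K (ext (y l)) u t ht
      rw [sum_congr rfl fun l _ => h2 l, sum_add_distrib]
      show t0 (u, t) + (lam enc g x0 (u, t) + (_ + _)) = t0 (u, t) + lam enc g x0 (u, t) + _ + _
      abel
    have hin : ∀ (y : Fin (2 * w + 1 + 1) → Fin K.card × Fin m1 → B) (c : Fin K.card × Fin m1),
        t0 (pp c) + lam enc g (XX x0 (b + τ y)) (pp c) = base (pp c) + ∑ l, y l c := by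
      intro y c
      have h1 : (pp c).1 ∈ K := (κ.symm c.1).2
      have h2 : (pp c).2.val < m1 := c.2.isLt
      rw [hlam y _ h2]
      congr 1
      refine sum_congr rfl fun l _ => ?_
      rw [if_pos h1]
      show (if hv : (pp c).1 ∈ K ∧ (pp c).2.val < m1 then y l (κ ⟨(pp c).1, hv.1⟩, ⟨(pp c).2.val, hv.2⟩) else 0) = _
      rw [dif_pos ⟨h1, h2⟩]
      congr 1
      refine Prod.ext ?_ rfl
      show κ (κ.symm c.1) = c.1
      exact κ.apply_symm_apply _
    have hout : ∀ (y : Fin (2 * w + 1 + 1) → Fin K.card × Fin m1 → B) (v : Fin n × Fin m), v.2.val < m1 →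
        v.1 ∉ K → t0 v + lam enc g (XX x0 (b + τ y)) v = base v := by
      intro y v hv hK
      rw [hlam y v hv]
      have h1 : (∑ l : Fin (2 * w + 1 + 1), if v.1 ∈ K then ext (y l) v else 0) = 0 :=
        sum_eq_zero fun l _ => if_neg hK
      rw [h1, add_zero]
    obtain ⟨S1, hS1⟩ : ∃ S1 : Finset (Fin n × Fin m), S1 = univ.filter (fun v => v.2.val < m1) := ⟨_, rfl⟩
    have hf : ∀ y : Fin (2 * w + 1 + 1) → Fin K.card × Fin m1 → B, f (XX x0 (b + τ y)) = z ↔
        ∑ c : Fin K.card × Fin m1, γ (base (pp c) + ∑ l, y l c) =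
          z - ∑ v ∈ S1.filter (fun v => ¬ v.1 ∈ K), γ (base v) := by
      intro y
      have h1 : f (XX x0 (b + τ y)) = ∑ v ∈ S1.filter (fun v => v.1 ∈ K), γ (t0 v + lam enc g (XX x0 (b + τ y)) v) +
          ∑ v ∈ S1.filter (fun v => ¬ v.1 ∈ K), γ (t0 v + lam enc g (XX x0 (b + τ y)) v) := by
        rw [sum_filter_add_sum_filter_not, hS1]
      have h2 : ∑ v ∈ S1.filter (fun v => ¬ v.1 ∈ K), γ (t0 v + lam enc g (XX x0 (b + τ y)) v) =
          ∑ v ∈ S1.filter (fun v => ¬ v.1 ∈ K), γ (base v) := by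
        refine sum_congr rfl fun v hv => ?_
        rw [hS1, mem_filter, mem_filter] at hv
        rw [hout y v hv.1.2 hv.2]
      have h3 : ∑ v ∈ S1.filter (fun v => v.1 ∈ K), γ (t0 v + lam enc g (XX x0 (b + τ y)) v) =
          ∑ c : Fin K.card × Fin m1, γ (base (pp c) + ∑ l, y l c) := by
        symm
        refine sum_bij (fun c _ => pp c) ?_ ?_ ?_ ?_
        · intro c _
          rw [hS1, mem_filter, mem_filter]
          exact ⟨⟨mem_univ _, c.2.isLt⟩, (κ.symm c.1).2⟩
        · intro c _ c' _ hc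
          have h4 : ((κ.symm c.1).1, Fin.castLE hm1 c.2) = ((κ.symm c'.1).1, Fin.castLE hm1 c'.2) := hc
          obtain ⟨h5, h6⟩ := Prod.ext_iff.1 h4
          exact Prod.ext (κ.symm.injective (Subtype.ext h5)) (Fin.castLE_injective hm1 h6)
        · rintro ⟨u, t⟩ hv
          rw [hS1, mem_filter, mem_filter] at hv
          refine ⟨(κ ⟨u, hv.2⟩, ⟨t.val, hv.1.2⟩), mem_univ _, ?_⟩
          show ((κ.symm (κ ⟨u, hv.2⟩)).1, Fin.castLE hm1 ⟨t.val, hv.1.2⟩) = (u, t)
          rw [Equiv.symm_apply_apply]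
          rfl
        · intro c _
          rw [hin y c]
      rw [h1, h2, h3, eq_sub_iff_add_eq]
    have key := hγ (fun c => base (pp c)) (fun l => {y | Cyl l x0 (b + τ y)}) ?_
      (z - ∑ v ∈ S1.filter (fun v => ¬ v.1 ∈ K), γ (base v))
    · have h1 : Nat.card {y // (∀ l, Cyl l x0 (b + τ y)) ∧ f (XX x0 (b + τ y)) = z} =
          Nat.card {y : Fin (2 * w + 1 + 1) → Fin K.card × Fin m1 → B // (∀ l, y ∈ {y | Cyl l x0 (b + τ y)}) ∧
            ∑ c, γ (base (pp c) + ∑ l, y l c) =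
              z - ∑ v ∈ S1.filter (fun v => ¬ v.1 ∈ K), γ (base v)} :=
        Nat.card_congr (Equiv.subtypeEquivRight fun y => and_congr_right fun _ => hf y)
      rw [h1]
      refine key.trans (le_of_eq ?_)
      rw [Nat.card_eq_fintype_card (α := G), Nat.card_eq_fintype_card (α := Fin (2 * w + 1 + 1) → Fin K.card × Fin m1 → B)]
      rfl
    · intro l y y' hy
      have h1 : ∀ l', l' ≠ l → (b + τ (Function.update y l y')) l' = (b + τ y) l' := by
        intro l' hl'
        show b l' + shift enc m1 (hh (jj l')) (ext (Function.update y l y' l')) =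
          b l' + shift enc m1 (hh (jj l')) (ext (y l'))
        rw [Function.update_of_ne hl']
      have h2 : Xj (jj l) x0 (b + τ (Function.update y l y')) = Xj (jj l) x0 (b + τ y) := by
        rw [hXj]
        show x0 + _ = x0 + _
        congr 1
        refine sum_congr rfl fun l' hl' => ?_
        rw [h1 l' fun h3 => (mem_filter.1 hl').2 (by rw [h3])]
      have hy' : Cyl l x0 (b + τ y) := hy
      show Cyl l x0 (b + τ (Function.update y l y'))
      refine ⟨?_, ?_⟩
      · rw [h2]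
        exact hy'.1
      · rw [h2, h1 (pt l) (p3 l)]
        exact hy'.2
  -- the end
  have e1 := (hchg fun x => f x = z).symm.trans (hsum fun x => f x = z)
  have e2 := (hchg fun _ => True).symm.trans (hsum fun _ => True)
  simp only [and_true] at e2
  have e3 := sum_le_sum (s := (univ : Finset (Ch n m F W))) fun x0 _ => hone x0
  rw [sum_add_distrib, ← sum_div, e1, e2, sum_const, card_univ, nsmul_eq_mul] at e3
  have hc0R : (c0 : ℝ) = ((h : ℝ) ^ K.card * (Fintype.card W : ℝ) ^ (n - K.card)) ^ (2 * w + 1 + 1) := by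
    rw [hc0]
    push_cast
    rfl
  have hc0p : (0 : ℝ) < c0 := by rw [hc0R]; positivity
  have hKn : K.card ≤ n := by
    have := card_le_univ K
    rwa [Fintype.card_fin] at this
  have hcY : (Fintype.card (Fin (2 * w + 1 + 1) → Fin n → W) : ℝ) =
      (1 / ((h : ℝ) / Fintype.card W)) ^ (2 * (w + 1) * K.card) * c0 := by
    have h1 : (Fintype.card (Fin (2 * w + 1 + 1) → Fin n → W) : ℝ) =
        ((Fintype.card W : ℝ) ^ n) ^ (2 * w + 1 + 1) := by
      rw [Fintype.card_fun, Fintype.card_fun, Fintype.card_fin, Fintype.card_fin]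
      push_cast
      rfl
    rw [h1, hc0R, one_div_div]
    have h2 : 2 * (w + 1) * K.card = K.card * (2 * w + 1 + 1) := by ring
    rw [h2, pow_mul, ← mul_pow]
    congr 1
    rw [div_pow, ← mul_assoc, div_mul_cancel₀ _ (by positivity), ← pow_add]
    congr 1
    omega
  rw [hcY] at e3
  refine le_of_mul_le_mul_right ?_ hc0p
  refine e3.trans (le_of_eq ?_)
  rw [Nat.card_eq_fintype_card]
  ring

end net

end Pool.Agent.Helper27.BT
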