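import Pool.Agent.Helper96.BT.Defs

/-!
# BT: changes of the letters of the next row by changes in the holes
-/

set_option autoImplicit false
set_option linter.unusedSectionVars false

namespace Pool.Agent.Helper27.BT

open Finset Pool.Agent.Helper19.NF Pool.Agent.Helper74.NW Pool.Agent.Helper96.BT
open Pool.Agent.Helper74.NE (fine fine_apply)
open Pool.Agent.Helper99.NQ (pos)

section net

variable {n D m : ℕ} [NeZero m] {F B W : Type} [Field F] [AddCommGroup B] [AddCommGroup W] [Module F W] [Fintype W]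
  (enc : W →+ (Fin D × Fin m → B))

theorem cont_add (y y' : W → F) : cont (y + y') = cont y + cont y' := by
  unfold cont
  rw [← sum_add_distrib]
  exact sum_congr rfl fun l _ => add_smul _ _ _

theorem lam_add (g : Fin D → Equiv.Perm (Fin n)) (x y : Ch n m F W) (v : Fin n × Fin m) :
    lam enc g (x + y) v = lam enc g x v + lam enc g y v := by
  unfold lam
  rw [← sum_add_distrib]
  refine sum_congr rfl fun c _ => ?_
  rw [Pi.add_apply, cont_add, map_add, Pi.add_apply]

theorem lam_sum {ι : Type} (g : Fin D → Equiv.Perm (Fin n)) (s : Finset ι) (x : ι → Ch n m F W)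
    (v : Fin n × Fin m) : lam enc g (∑ i ∈ s, x i) v = ∑ i ∈ s, lam enc g (x i) v := by
  classical
  induction s using Finset.induction_on with
  | empty =>
    rw [sum_empty, sum_empty]
    have h := lam_add enc g (0 : Ch n m F W) 0 v
    rw [add_zero] at h
    exact left_eq_add.1 h
  | insert i s hi ih => rw [sum_insert hi, sum_insert hi, lam_add, ih]

theorem flip_ne_zero {g : Fin D → Equiv.Perm (Fin n)} {h1 : Fin n → Fin D × Fin m} {K : Finset (Fin n)}
    {b : Fin n → W} {p : Fin n × Fin m} {l : W} (h : flip (F := F) g h1 K b p l ≠ 0) :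
    ∃ u ∈ K, pos g h1 u = p ∧ b u = l := by
  classical
  unfold Pool.Agent.Helper96.BT.flip at h
  obtain ⟨u, hu, h2⟩ := exists_ne_zero_of_sum_ne_zero h
  refine ⟨u, hu, ?_⟩
  by_contra h3
  exact h2 (if_neg h3)

open Classical in
theorem cont_flip (g : Fin D → Equiv.Perm (Fin n)) (h1 : Fin n → Fin D × Fin m) (K : Finset (Fin n)) (b : Fin n → W)
    (p : Fin n × Fin m) : cont (flip (F := F) g h1 K b p) = ∑ u ∈ K, if pos g h1 u = p then b u else 0 := by
  unfold cont Pool.Agent.Helper96.BT.flip
  simp_rw [sum_smul]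
  rw [sum_comm]
  refine sum_congr rfl fun u _ => ?_
  by_cases hp : pos g h1 u = p
  · rw [if_pos hp, sum_eq_single (b u)]
    · rw [if_pos ⟨hp, rfl⟩, one_smul]
    · intro l _ hl
      rw [if_neg fun h => hl h.2.symm, zero_smul]
    · intro h
      exact absurd (mem_univ _) h
  · rw [if_neg hp]
    refine sum_eq_zero fun l _ => ?_
    rw [if_neg fun h => hp h.1, zero_smul]

open Classical in
/-- M2: the change of a letter by the changes in the holes. -/
theorem lam_flip (g : Fin D → Equiv.Perm (Fin n)) (h1 : Fin n → Fin D × Fin m) (A : Finset (Fin n)) (b : Fin n → W)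
    (v : Fin n × Fin m) : lam enc g (flip (F := F) g h1 A b) v =
      ∑ c, ∑ u ∈ A, if pos g h1 u = fine g c v then enc (b u) c else 0 := by
  unfold lam
  refine sum_congr rfl fun c _ => ?_
  rw [cont_flip, map_sum, Finset.sum_apply]
  refine sum_congr rfl fun u _ => ?_
  split_ifs
  · rfl
  · rw [map_zero]
    rfl

theorem lam_flip_add (g : Fin D → Equiv.Perm (Fin n)) (h1 : Fin n → Fin D × Fin m) (K : Finset (Fin n))
    (b b' : Fin n → W) (v : Fin n × Fin m) :
    lam enc g (flip (F := F) g h1 K (b + b')) v =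
      lam enc g (flip (F := F) g h1 K b) v + lam enc g (flip (F := F) g h1 K b') v := by
  classical
  rw [lam_flip, lam_flip, lam_flip, ← sum_add_distrib]
  refine sum_congr rfl fun c _ => ?_
  rw [← sum_add_distrib]
  refine sum_congr rfl fun u _ => ?_
  split_ifs
  · rw [Pi.add_apply, map_add]
    rfl
  · rw [add_zero]

/-- A content with given letters `(s, t0 - t)`, `t < m1`, and zero letters `(s', t0 - t)` for `s' ≠ s`. -/
theorem exists_own {m1 : ℕ} (hE : Mds enc (D * m1)) (hm1 : m1 ≤ m) (c0 : Fin D × Fin m) (y : Fin m → B) :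
    ∃ w : W, ∀ s' t, t.val < m1 → enc w (s', c0.2 - t) = if s' = c0.1 then y t else 0 := by
  classical
  let A : Finset (Fin D × Fin m) := (univ ×ˢ univ.filter (fun t : Fin m => t.val < m1)).image
    (fun p => (p.1, c0.2 - p.2))
  have hA : A.card ≤ D * m1 := by
    refine card_image_le.trans ?_
    rw [card_product, card_univ, Fintype.card_fin]
    refine Nat.mul_le_mul_left _ ?_
    rw [← Fintype.card_subtype]
    have h1 : Fintype.card {t : Fin m // t.val < m1} ≤ Fintype.card (Fin m1) :=
      Fintype.card_le_of_injective (fun t => (⟨t.1.val, t.2⟩ : Fin m1)) fun t t' h => by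
        apply Subtype.ext
        apply Fin.ext
        exact Fin.mk.inj_iff.1 h
    rwa [Fintype.card_fin] at h1
  obtain ⟨w, hw⟩ := hE A hA fun c => if c.1 = c0.1 then y (c0.2 - c.2) else 0
  refine ⟨w, fun s' t ht => ?_⟩
  have h2 : (s', c0.2 - t) ∈ A := mem_image.2 ⟨(s', t), mem_product.2 ⟨mem_univ _, mem_filter.2 ⟨mem_univ _, ht⟩⟩, rfl⟩
  rw [hw _ h2]
  show (if s' = c0.1 then y (c0.2 - (c0.2 - t)) else 0) = _
  rw [sub_sub_cancel]

open Classical in
/-- The shift: own entries `y` for the letters `t < m1` of the nodes in `K`, all other entries zero. -/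
noncomputable def shift (m1 : ℕ) (h1 : Fin n → Fin D × Fin m) (y : Fin n × Fin m → B) (u : Fin n) : W :=
  if h : ∃ w : W, ∀ s' t, t.val < m1 → enc w (s', (h1 u).2 - t) = if s' = (h1 u).1 then y (u, t) else 0 then h.choose
  else 0

theorem shift_spec {m1 : ℕ} (hE : Mds enc (D * m1)) (hm1 : m1 ≤ m) (h1 : Fin n → Fin D × Fin m)
    (y : Fin n × Fin m → B) (u : Fin n) (s' : Fin D) (t : Fin m) (ht : t.val < m1) :
    enc (shift enc m1 h1 y u) (s', (h1 u).2 - t) = if s' = (h1 u).1 then y (u, t) else 0 := by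
  classical
  have h := exists_own enc hE hm1 (h1 u) fun t => y (u, t)
  unfold shift
  rw [dif_pos h]
  exact h.choose_spec s' t ht

theorem lam_shift {m1 : ℕ} (hE : Mds enc (D * m1)) (hm1 : m1 ≤ m) (g : Fin D → Equiv.Perm (Fin n))
    (h1 : Fin n → Fin D × Fin m) (K : Finset (Fin n)) (y : Fin n × Fin m → B) (u : Fin n)
    (t : Fin m) (ht : t.val < m1) :
    lam enc g (flip (F := F) g h1 K (shift enc m1 h1 y)) (u, t) = if u ∈ K then y (u, t) else 0 := by
  classical
  rw [lam_flip]
  have key : ∀ c : Fin D × Fin m, ∀ u' ∈ K,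
      (if pos g h1 u' = fine g c (u, t) then enc (shift enc m1 h1 y u') c else 0) =
        if u' = u ∧ c = ((h1 u).1, (h1 u).2 - t) then y (u, t) else 0 := by
    rintro ⟨s', r⟩ u' _
    by_cases hp : pos g h1 u' = fine g (s', r) (u, t)
    · rw [if_pos hp]
      have h2 : g (h1 u').1 u' = g s' u ∧ (h1 u').2 = t + r := Prod.ext_iff.1 hp
      have h3 : r = (h1 u').2 - t := by rw [h2.2]; abel
      rw [h3, shift_spec enc hE hm1 h1 y u' s' t ht]
      by_cases hs : s' = (h1 u').1
      · have h4 : u' = u := (g s').injective (by rw [← h2.1, hs])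
        subst h4
        rw [if_pos hs, if_pos ⟨rfl, by rw [hs]⟩]
      · rw [if_neg hs, if_neg]
        rintro ⟨h4, h5⟩
        subst h4
        exact hs (Prod.ext_iff.1 h5).1
    · rw [if_neg hp, if_neg]
      rintro ⟨h4, h5⟩
      subst h4
      refine hp ?_
      rw [h5]
      show (g (h1 u').1 u', (h1 u').2) = (g (h1 u').1 u', t + ((h1 u').2 - t))
      rw [add_sub_cancel]
  rw [sum_congr rfl fun c _ => sum_congr rfl fun u' hu' => key c u' hu']
  by_cases hu : u ∈ K
  · rw [if_pos hu, sum_eq_single ((h1 u).1, (h1 u).2 - t)]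
    · rw [sum_eq_single u]
      · rw [if_pos ⟨rfl, rfl⟩]
      · intro u' _ h
        rw [if_neg fun h' => h h'.1]
      · intro h
        exact absurd hu h
    · intro c _ h
      exact sum_eq_zero fun u' _ => if_neg fun h' => h h'.2
    · intro h
      exact absurd (mem_univ _) h
  · rw [if_neg hu]
    refine sum_eq_zero fun c _ => sum_eq_zero fun u' hu' => if_neg ?_
    rintro ⟨h4, -⟩
    subst h4
    exact hu hu'

end net

end Pool.Agent.Helper27.BT
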